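import Pool.Agent.Lib.MP_2301b5_al.Law

open Pool.Agent.Lib.MP_2301b5_al

namespace Pool.Agent.Results.MP_2301b5_al.HeisenbergVariety

/-- The variety generated by the lexicographically ordered integer Heisenberg group is not of
finite rank, and each of its proper subvarieties is of finite rank. -/
theorem result : ∃ (H : LGroup) (a b c : H.carrier → ℤ),
    Function.Bijective (fun x => (a x, b x, c x)) ∧
    (∀ x y : H.carrier, a (x * y) = a x + a y ∧ b (x * y) = b x + b y ∧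
      c (x * y) = c x + c y + a x * b y) ∧
    (∀ x y : H.carrier, x ≤ y ↔
      a x < a y ∨ (a x = a y ∧ (b x < b y ∨ (b x = b y ∧ c x ≤ c y)))) ∧
    ¬ FiniteRank (Variety {l | Holds H l}) ∧
    ∀ S : Set (Term × Term), Variety S ⊂ Variety {l | Holds H l} → FiniteRank (Variety S) := by
  refine ⟨Heis, fun x : HZ => x.a, fun x : HZ => x.b, fun x : HZ => x.c,
    (⟨fun x : HZ => (x.a, x.b, x.c), fun t => (⟨t.1, t.2.1, t.2.2⟩ : HZ),
      fun _ => rfl, fun _ => rfl⟩ : HZ ≃ ℤ × ℤ × ℤ).bijective,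
    fun _ _ => ⟨rfl, rfl, rfl⟩, ?_, infinite_rank, proper_finite⟩
  intro (x : HZ) (y : HZ)
  show _ ↔ x.a < y.a ∨ (x.a = y.a ∧ (x.b < y.b ∨ (x.b = y.b ∧ x.c ≤ y.c)))
  refine (heisCone.le_iff x y).trans ?_
  show x = y ∨ (0 < -x.a + y.a ∨ (-x.a + y.a = 0 ∧ (0 < -x.b + y.b ∨ (-x.b + y.b = 0 ∧
    0 < -x.c + x.a * x.b + y.c + -x.a * y.b)))) ↔ _
  rw [Hs.ext_iff]
  by_cases h : x.b = y.b
  · rw [← h]
    have : -x.c + x.a * x.b + y.c + -x.a * x.b = y.c - x.c := by ring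
    rw [this]
    omega
  · generalize -x.c + x.a * x.b + y.c + -x.a * y.b = t
    omega

end Pool.Agent.Results.MP_2301b5_al.HeisenbergVariety
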